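import Mathlib

set_option autoImplicit false

/-!
# MP_59918e_co: an equistable graph that is not weakly CIS

The graph is the complement of the line graph of a triangle-free graph with 9 vertices and 14 edges.
-/

namespace Pool.Agent.Results.MP_59918e_co.EquistableNotWeaklyCIS

/-- `G` is equistable: there is a weight function `φ ≥ 0` on the vertices such that a set `S` of
vertices is a maximal stable set if and only if its total weight is `1`. -/
def Equistable {V : Type} (G : SimpleGraph V) : Prop :=
  ∃ φ : V → ℝ, (∀ v, 0 ≤ φ v) ∧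
    ∀ S : Finset V, Maximal G.IsIndepSet (S : Set V) ↔ ∑ v ∈ S, φ v = 1

/-- `G` is weakly CIS: there are a family `C` of maximal cliques such that any two adjacent vertices
lie together in a member of `C`, and a family `T` of maximal stable sets such that any two distinct
non-adjacent vertices lie together in a member of `T`, with `K ∩ I ≠ ∅` for all `K ∈ C`, `I ∈ T`. -/
def WeaklyCIS {V : Type} (G : SimpleGraph V) : Prop :=
  ∃ C T : Set (Set V),
    (∀ K ∈ C, Maximal G.IsClique K) ∧
    (∀ u v, G.Adj u v → ∃ K ∈ C, u ∈ K ∧ v ∈ K) ∧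
    (∀ I ∈ T, Maximal G.IsIndepSet I) ∧
    (∀ u v, u ≠ v → ¬ G.Adj u v → ∃ I ∈ T, u ∈ I ∧ v ∈ I) ∧
    (∀ K ∈ C, ∀ I ∈ T, (K ∩ I).Nonempty)

/-- The 14 edges of the triangle-free graph `H` on the vertices `0, …, 8`. -/
def edge : Fin 14 → Fin 9 × Fin 9 :=
  ![(0, 1), (0, 3), (0, 4), (1, 5), (1, 8), (2, 4), (2, 7), (2, 8), (3, 7), (3, 8), (4, 6), (5, 6),
    (5, 7), (6, 8)]

/-- The edge `e` of `H` contains the vertex `v`. -/
def inc (e : Fin 14) (v : Fin 9) : Bool := (edge e).1 = v || (edge e).2 = v

/-- Two edges of `H` have a common vertex. -/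
def meet (e f : Fin 14) : Bool := inc f (edge e).1 || inc f (edge e).2

/-- The complement of the line graph of `H`. -/
def G : SimpleGraph (Fin 14) where
  Adj e f := meet e f = false
  symm := ⟨by decide⟩
  loopless := ⟨by decide⟩

/-- The star of the vertex `v`. -/
def star (v : Fin 9) : Finset (Fin 14) := Finset.univ.filter (fun e => inc e v = true)

/-- The weights (times 150). -/
def wt : Fin 14 → ℕ := ![32, 63, 55, 81, 37, 23, 76, 51, 54, 33, 72, 49, 20, 29]

theorem star_indep (v : Fin 9) : G.IsIndepSet (star v : Set (Fin 14)) := by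
  intro e he f hf _
  have h : ∀ v : Fin 9, ∀ e f : Fin 14, inc e v = true → inc f v = true → meet e f = true := by
    decide
  simp only [star, Finset.coe_filter, Finset.mem_univ, true_and, Set.mem_ofPred_eq] at he hf
  simp [G, h v e f he hf]

/-- An independent set containing two distinct edges at `v` is contained in the star of `v`. -/
theorem sub_star {S : Set (Fin 14)} (hS : G.IsIndepSet S) {e f : Fin 14} (he : e ∈ S) (hf : f ∈ S)
    (hef : e ≠ f) {v : Fin 9} (hev : inc e v = true) (hfv : inc f v = true) :
    ∀ g ∈ S, inc g v = true := by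
  have key : ∀ v : Fin 9, ∀ e f g : Fin 14, inc e v = true → inc f v = true → e ≠ f →
      (g = e ∨ meet g e = true) → (g = f ∨ meet g f = true) → inc g v = true := by
    decide +kernel
  intro g hg
  refine key v e f g hev hfv hef ?_ ?_
  · by_cases h : g = e
    · exact Or.inl h
    · have := hS hg he h
      exact Or.inr (by simpa [G] using this)
  · by_cases h : g = f
    · exact Or.inl h
    · have := hS hg hf h
      exact Or.inr (by simpa [G] using this)

/-- A maximal independent set is a star. -/
theorem max_indep_eq_star {S : Set (Fin 14)} (hS : Maximal G.IsIndepSet S) :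
    ∃ v : Fin 9, S = (star v : Set (Fin 14)) := by
  suffices h : ∃ v : Fin 9, ∀ g ∈ S, inc g v = true by
    obtain ⟨v, hv⟩ := h
    refine ⟨v, hS.eq_of_subset (star_indep v) ?_⟩
    intro g hg
    simp [star, hv g hg]
  by_cases h2 : ∃ e ∈ S, ∃ f ∈ S, e ≠ f
  · obtain ⟨e, he, f, hf, hef⟩ := h2
    have hm : meet e f = true := by
      have := hS.prop he hf hef
      simpa [G] using this
    have key : ∀ e f : Fin 14, meet e f = true → ∃ v : Fin 9, inc e v = true ∧ inc f v = true := by
      decide
    obtain ⟨v, h1, h2⟩ := key e f hm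
    exact ⟨v, sub_star hS.prop he hf hef h1 h2⟩
  · push Not at h2
    by_cases h1 : ∃ e, e ∈ S
    · obtain ⟨e, he⟩ := h1
      refine ⟨(edge e).1, fun g hg => ?_⟩
      rw [← h2 e he g hg]
      simp [inc]
    · push Not at h1
      exact ⟨0, fun g hg => absurd hg (h1 g)⟩

/-- A star is a maximal independent set. -/
theorem star_maximal (v : Fin 9) : Maximal G.IsIndepSet (star v : Set (Fin 14)) := by
  refine ⟨star_indep v, ?_⟩
  intro S hS hsub
  have key : ∀ v : Fin 9, ∃ e f : Fin 14, e ≠ f ∧ inc e v = true ∧ inc f v = true := by decide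
  obtain ⟨e, f, hef, he, hf⟩ := key v
  have h := sub_star hS (hsub (by simp [star, he])) (hsub (by simp [star, hf])) hef he hf
  intro g hg
  simp [star, h g hg]

/-! ### Subsets of weight 150 -/

/-- All sublists (as lists of booleans) of a list of weights with a given total. -/
def enum : List ℕ → ℕ → List (List Bool)
  | [], t => if t = 0 then [[]] else []
  | a :: l, t => (enum l t).map (fun b => false :: b) ++
      (if a ≤ t then (enum l (t - a)).map (fun b => true :: b) else [])

/-- The total of a sublist. -/
def total : List ℕ → List Bool → ℕ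
  | a :: l, b :: bs => (if b then a else 0) + total l bs
  | _, _ => 0

theorem mem_enum : ∀ (l : List ℕ) (b : List Bool) (t : ℕ), l.length = b.length → total l b = t →
    b ∈ enum l t
  | [], [], t, _, h => by simp [total] at h; subst h; simp [enum]
  | [], _ :: _, _, h, _ => by simp at h
  | _ :: _, [], _, h, _ => by simp at h
  | a :: l, b :: bs, t, h, ht => by
    rw [enum, List.mem_append]
    have h' : l.length = bs.length := by simpa using h
    cases b with
    | false =>
      left
      rw [List.mem_map]
      refine ⟨bs, mem_enum l bs t h' ?_, rfl⟩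
      simpa [total] using ht
    | true =>
      right
      have ht' : a + total l bs = t := by simpa [total] using ht
      rw [if_pos (by omega), List.mem_map]
      exact ⟨bs, mem_enum l bs (t - a) h' (by omega), rfl⟩

/-- A set of edges as a list of booleans. -/
def code (S : Finset (Fin 14)) : List Bool := List.ofFn (fun i => decide (i ∈ S))

theorem code_inj {S T : Finset (Fin 14)} (h : code S = code T) : S = T := by
  have h1 := List.ofFn_injective h
  ext i
  have h2 := congrFun h1 i
  simpa using h2

theorem total_ofFn : ∀ (n : ℕ) (w : Fin n → ℕ) (b : Fin n → Bool),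
    total (List.ofFn w) (List.ofFn b) = ∑ i, if b i = true then w i else 0
  | 0, _, _ => by simp [total]
  | n + 1, w, b => by
    rw [List.ofFn_succ, List.ofFn_succ, total, total_ofFn n, Fin.sum_univ_succ]

theorem total_code (S : Finset (Fin 14)) : total (List.ofFn wt) (code S) = ∑ i ∈ S, wt i := by
  rw [code, total_ofFn]
  simp only [decide_eq_true_eq]
  rw [← Finset.sum_filter]
  congr 1
  ext i
  simp

/-- The only subsets of weight 150 are the nine stars. -/
theorem enum_eq : ∀ b ∈ enum (List.ofFn wt) 150, ∃ v : Fin 9, b = code (star v) := by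
  decide +kernel

theorem star_weight : ∀ v : Fin 9, ∑ i ∈ star v, wt i = 150 := by
  decide +kernel

theorem weight_iff (S : Finset (Fin 14)) : ∑ i ∈ S, wt i = 150 ↔ ∃ v : Fin 9, S = star v := by
  constructor
  · intro h
    have hm : code S ∈ enum (List.ofFn wt) 150 := by
      refine mem_enum _ _ _ ?_ ?_
      · rw [code, List.length_ofFn, List.length_ofFn]
      · rw [total_code, h]
    obtain ⟨v, hv⟩ := enum_eq _ hm
    exact ⟨v, code_inj hv⟩
  · rintro ⟨v, rfl⟩
    exact star_weight v

theorem equistable : Equistable G := by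
  refine ⟨fun i => (wt i : ℝ) / 150, fun v => by positivity, fun S => ?_⟩
  have h1 : (∑ v ∈ S, (wt v : ℝ) / 150 = 1) ↔ ∑ i ∈ S, wt i = 150 := by
    rw [← Finset.sum_div, div_eq_one_iff_eq (by norm_num)]
    constructor
    · intro h; exact_mod_cast h
    · intro h; exact_mod_cast h
  rw [h1, weight_iff]
  constructor
  · intro h
    obtain ⟨v, hv⟩ := max_indep_eq_star h
    exact ⟨v, Finset.coe_injective hv⟩
  · rintro ⟨v, rfl⟩
    exact star_maximal v

/-- The two end vertices of an edge of `H`. -/
def ends (e : Fin 14) : Finset (Fin 9) := {(edge e).1, (edge e).2}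

theorem not_weaklyCIS : ¬ WeaklyCIS G := by
  classical
  rintro ⟨C, T, hC, hCc, hT, hTc, hX⟩
  obtain ⟨K, hK, -, -⟩ := hCc 0 13 (by show meet 0 13 = false; decide)
  -- `K` is a matching of `H`, and it covers every vertex
  have hcl := (hC K hK).prop
  have hcover : ∀ v : Fin 9, ∃ e ∈ K, inc e v = true := by
    intro v
    have key : ∀ v : Fin 9, ∃ e f : Fin 14, e ≠ f ∧ inc e v = true ∧ inc f v = true := by decide
    obtain ⟨e, f, hef, he, hf⟩ := key v
    have hadj : ¬ G.Adj e f := by
      have h : ∀ v : Fin 9, ∀ e f : Fin 14, inc e v = true → inc f v = true → meet e f = true := by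
        decide
      simp [G, h v e f he hf]
    obtain ⟨I, hI, heI, hfI⟩ := hTc e f hef hadj
    obtain ⟨g, hgK, hgI⟩ := hX K hK I hI
    exact ⟨g, hgK, sub_star (hT I hI).prop heI hfI hef he hf g hgI⟩
  let K' : Finset (Fin 14) := Finset.univ.filter (fun e => e ∈ K)
  have hdisj : ((K' : Set (Fin 14))).PairwiseDisjoint ends := by
    intro e he f hf hef
    have he' : e ∈ K := by simpa [K'] using he
    have hf' : f ∈ K := by simpa [K'] using hf
    have h := hcl he' hf' hef
    have key : ∀ e f : Fin 14, meet e f = false → Disjoint (ends e) (ends f) := by decide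
    exact key e f h
  have hcard : (K'.biUnion ends).card = ∑ e ∈ K', (ends e).card := Finset.card_biUnion hdisj
  have h2 : ∀ e : Fin 14, (ends e).card = 2 := by decide
  have huniv : K'.biUnion ends = Finset.univ := by
    ext v
    simp only [Finset.mem_biUnion, Finset.mem_univ, iff_true]
    obtain ⟨e, he, hev⟩ := hcover v
    refine ⟨e, by simp [K', he], ?_⟩
    have key : ∀ e : Fin 14, ∀ v : Fin 9, inc e v = true → v ∈ ends e := by decide
    exact key e v hev
  rw [huniv, Finset.sum_congr rfl (fun e _ => h2 e), Finset.sum_const, Finset.card_univ,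
    Fintype.card_fin, smul_eq_mul] at hcard
  omega

/-- **There is a finite simple graph (with 14 vertices) that is equistable but not weakly CIS.** -/
theorem result : ∃ (n : ℕ) (G : SimpleGraph (Fin n)), Equistable G ∧ ¬ WeaklyCIS G :=
  ⟨14, G, equistable, not_weaklyCIS⟩

end Pool.Agent.Results.MP_59918e_co.EquistableNotWeaklyCIS
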